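import Mathlib
import Pool.Agent.Q72.QTI.Main

/-!
# The quasi triangle inequality fails for the Lempert function of a smooth pseudoconvex domain

The definitions (`lempert`, `HasSmoothBoundary`, `IsPseudoconvex`) are in
`Pool.Agent.Q72.QTI.Defs`.
-/

set_option autoImplicit false

open Metric Set Filter Topology

namespace Pool.Agent.Results.MP_68919f_an.QuasiTriangleFails

open Q72.QTI

/-- In every dimension `n ≥ 3` there is a bounded pseudoconvex domain with `C^∞`-smooth boundary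
whose Lempert function satisfies no quasi triangle inequality. -/
theorem result :
    ∀ n : ℕ, 3 ≤ n → ∃ D : Set (EuclideanSpace ℂ (Fin n)),
      IsOpen D ∧ IsConnected D ∧ Bornology.IsBounded D ∧ IsPseudoconvex D ∧
      HasSmoothBoundary D ∧
      ∀ C : ℝ, ∃ x ∈ D, ∃ y ∈ D, ∃ z ∈ D,
        C * (lempert D x y + lempert D y z) < lempert D x z := by
  intro n hn
  obtain ⟨n, rfl⟩ : ∃ m, n = m + 3 := ⟨n - 3, by omega⟩
  refine ⟨Dom n, dom_pseudoconvex.1, dom_connected, dom_bounded, dom_pseudoconvex, dom_smooth,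
    fun C => ?_⟩
  set ε : ℝ := 1 / (2 + 13 * |C|) with hε
  have hC : 0 ≤ |C| := abs_nonneg C
  have h0 : 0 < ε := by positivity
  have h1 : ε ≤ 1 / 2 := by
    apply one_div_le_one_div_of_le two_pos
    linarith
  have hm : ∀ t u : ℝ, 0 ≤ t → 0 ≤ u → t ≤ 2 → u ≤ 2 →
      (pt ((1 - ε ^ 12 : ℝ) : ℂ) ((t * ε ^ 4 : ℝ) : ℂ) ((u * ε ^ 4 : ℝ) : ℂ) : X n) ∈ Dom n :=
    fun t u a b c d => mem_z h0 h1 t u a b c d
  have e0 : (((0 : ℝ) * ε ^ 4 : ℝ) : ℂ) = 0 := by simp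
  have e1 : (((1 : ℝ) * ε ^ 4 : ℝ) : ℂ) = ((ε ^ 4 : ℝ) : ℂ) := by rw [one_mul]
  have hx := hm 0 0 le_rfl le_rfl two_pos.le two_pos.le
  have hy := hm 1 0 zero_le_one le_rfl one_le_two two_pos.le
  have hz := hm 1 1 zero_le_one zero_le_one one_le_two one_le_two
  rw [e0] at hx hy
  rw [e1] at hy hz
  refine ⟨_, hx, _, hy, _, hz, ?_⟩
  have u1 := up1 (n := n) h0 h1
  have u2 := up2 (n := n) h0 h1
  have lo := low (n := n) h0 h1
  have hl1 : 0 ≤ lempert (Dom n) (pt ((1 - ε ^ 12 : ℝ) : ℂ) 0 0)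
      (pt ((1 - ε ^ 12 : ℝ) : ℂ) ((ε ^ 4 : ℝ) : ℂ) 0) := by
    apply Real.sInf_nonneg
    rintro r ⟨φ, α, _, _, _, _, _, rfl⟩
    exact norm_nonneg _
  have hl2 : 0 ≤ lempert (Dom n) (pt ((1 - ε ^ 12 : ℝ) : ℂ) ((ε ^ 4 : ℝ) : ℂ) 0)
      (pt ((1 - ε ^ 12 : ℝ) : ℂ) ((ε ^ 4 : ℝ) : ℂ) ((ε ^ 4 : ℝ) : ℂ)) := by
    apply Real.sInf_nonneg
    rintro r ⟨φ, α, _, _, _, _, _, rfl⟩
    exact norm_nonneg _
  have h2 : |C| * ε < 1 / 12 := by
    rw [hε, mul_one_div, div_lt_div_iff₀ (by positivity) (by norm_num)]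
    linarith
  have h3 : |C| * (ε ^ 2 + 2 * ε ^ 2) < ε / 4 := by
    have e : |C| * (ε ^ 2 + 2 * ε ^ 2) = 3 * ε * (|C| * ε) := by ring
    rw [e]
    nlinarith
  refine lt_of_le_of_lt ?_ (lt_of_lt_of_le h3 lo)
  exact (mul_le_mul_of_nonneg_right (le_abs_self C) (add_nonneg hl1 hl2)).trans
    (mul_le_mul_of_nonneg_left (add_le_add u1 u2) hC)

end Pool.Agent.Results.MP_68919f_an.QuasiTriangleFails
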